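import Pool.Agent.LPM.Order

/-!
# Connected lattice path matroids: the structural condition
-/

set_option autoImplicit false
set_option linter.unusedSectionVars false

open Set

namespace Pool.Agent.LPM

universe u

variable {α : Type u}

/-- `D` is a circuit with exactly one element outside `L`. -/
def FC (M : Matroid α) (L D : Set α) : Prop :=
  M.IsCircuit D ∧ ∃ y, y ∉ L ∧ y ∈ D ∧ ∀ z ∈ D, z = y ∨ z ∈ L

/-- The structural condition for connected lattice path matroids. -/
def PhiConn (M : Matroid α) : Prop :=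
  ∃ L ⊆ M.E, ∃ U ⊆ M.E,
    (∀ D₁, FC M L D₁ → ∀ D₂, FC M L D₂ → D₁ ⊆ M.closure D₂ ∨ D₂ ⊆ M.closure D₁) ∧
    (∀ D₁, FC M U D₁ → ∀ D₂, FC M U D₂ → D₁ ⊆ M.closure D₂ ∨ D₂ ⊆ M.closure D₁) ∧
    (∀ D₁, FC M L D₁ → ∀ D₂, FC M U D₂ →
      (∀ x, x ∈ M.closure D₁ → x ∉ M.closure D₂) ∨
      (∀ x ∈ M.E, x ∈ M.closure D₁ ∨ x ∈ M.closure D₂)) ∧
    (∀ C, M.IsCircuit C → ∃ D₁, FC M L D₁ ∧ ∃ D₂, FC M U D₂ ∧
      C ⊆ M.closure D₁ ∧ C ⊆ M.closure D₂ ∧
      (∀ x, x ∈ M.closure D₁ → x ∈ M.closure D₂ → x ∈ M.closure C) ∧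
      ∃ B, M.Indep B ∧ ∃ I ⊆ B, ∃ J ⊆ B,
        I ⊆ M.closure D₁ ∧ D₁ ⊆ M.closure I ∧ J ⊆ M.closure D₂ ∧ D₂ ⊆ M.closure J)

/-- The first base in the given order. -/
def Lset (M : Matroid α) (g : α → ℕ) : Set α :=
  {y | y ∈ M.E ∧ rk M (Pre M g (g y)) < rk M (Pre M g (g y + 1))}

section

variable (M : Matroid α) [M.Finite] {g : α → ℕ}

theorem Lset_sub : Lset M g ⊆ M.E := fun _ h => h.1

theorem Lset_count (hg : InjOn g M.E) (t : ℕ) :
    (Lset M g ∩ Pre M g t).ncard = rk M (Pre M g t) := by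
  refine count_steps M hg (fun t => rk M (Pre M g t)) (by simp [Pre_zero])
    (fun t => rk_mono M (Pre_mono M g (Nat.le_succ t))) (fun t => rk_Pre_succ M hg t) ?_ t
  intro t ht
  rcases Pre_succ_sub M hg t with h | ⟨y, hy, hyt, _⟩
  · simp only [h]
  · exact absurd hyt (ht y hy)

theorem Pre_top {T : ℕ} (hT : ∀ y ∈ M.E, g y < T) : Pre M g T = M.E := by
  ext y; exact ⟨fun h => h.1, fun h => ⟨h, hT y h⟩⟩

theorem Suf_top {T : ℕ} (hT : ∀ y ∈ M.E, g y < T) : Suf M g T = ∅ := by
  ext y
  simp only [Suf, mem_ofPred_eq, mem_empty_iff_false, iff_false]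
  rintro ⟨h1, h2⟩
  have := hT y h1
  omega

theorem LP.Lset_base (hg : InjOn g M.E) (hLP : LP M g) : M.IsBase (Lset M g) := by
  obtain ⟨T, hT⟩ := exists_bound M g
  have hcard : (Lset M g).ncard = rk M M.E := by
    have h1 := Lset_count M hg T
    rw [Pre_top M hT, inter_eq_left.2 (Lset_sub M)] at h1
    exact h1
  refine hLP _ (Lset_sub M) hcard (fun t => ?_) (fun t => ?_)
  · rw [Lset_count M hg]
  · have h1 := ncard_Pre_add_Suf M g (Lset_sub M : Lset M g ⊆ M.E) t
    rw [Lset_count M hg] at h1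
    have h2 := rk_Pre_add_Suf M g (le_refl t)
    omega

theorem LP.Lset_basis (hg : InjOn g M.E) (hLP : LP M g) (t : ℕ) :
    M.IsBasis (Lset M g ∩ Pre M g t) (Pre M g t) := by
  refine isBasis_of_ncard M ((hLP.Lset_base M hg).indep.subset inter_subset_left)
    inter_subset_right (Pre_sub M g t) ?_
  rw [Lset_count M hg]

theorem exists_min {C : Set α} (hC : C ⊆ M.E) (hne : C.Nonempty) (g : α → ℕ) :
    ∃ a ∈ C, ∀ c ∈ C, g a ≤ g c :=
  Set.exists_min_image C g (sub_fin M hC) hne

theorem exists_max {C : Set α} (hC : C ⊆ M.E) (hne : C.Nonempty) (g : α → ℕ) :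
    ∃ b ∈ C, ∀ c ∈ C, g c ≤ g b :=
  Set.exists_max_image C g (sub_fin M hC) hne

/-- The top element of a circuit is not in the first base. -/
theorem LP.top_notMem (hg : InjOn g M.E) (hLP : LP M g) {C : Set α} (hC : M.IsCircuit C)
    {b : α} (hb : b ∈ C) (hbmax : ∀ c ∈ C, g c ≤ g b) : b ∉ Lset M g := by
  obtain ⟨a, ha, hamin⟩ := exists_min M hC.subset_ground hC.nonempty g
  have h := (hLP.circuit M hg hC ha hb hamin hbmax).2
  rintro ⟨_, h1⟩
  omega

/-- In the connected case, fundamental circuits of the first base are full. -/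
theorem LP.FC_eq (hg : InjOn g M.E) (hLP : LP M g) (hconn : Conn M) {D : Set α}
    (hD : M.IsCircuit D) {y : α} (hyL : y ∉ Lset M g) (hyD : y ∈ D)
    (h : ∀ z ∈ D, z = y ∨ z ∈ Lset M g) :
    D = insert y (Lset M g ∩ Pre M g (g y)) ∧
      rk M (Pre M g (g y + 1)) = rk M (Pre M g (g y)) := by
  have hDE := hD.subset_ground
  have hDf : D.Finite := sub_fin M hDE
  obtain ⟨a, ha, hamin⟩ := exists_min M hDE hD.nonempty g
  obtain ⟨b, hb, hbmax⟩ := exists_max M hDE hD.nonempty g
  have hbL : b ∉ Lset M g := hLP.top_notMem M hg hD hb hbmax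
  have hby : b = y := by
    rcases h b hb with h1 | h1
    · exact h1
    · exact absurd h1 hbL
  subst hby
  obtain ⟨h1, h2⟩ := hLP.circuit M hg hD ha hb hamin hbmax
  have hab : g a ≤ g b := hamin b hb
  have hsub : D \ {b} ⊆ Lset M g ∩ (Pre M g (g b) ∩ Suf M g (g a)) := by
    rintro z ⟨hz, hzb⟩
    rcases h z hz with h3 | h3
    · exact absurd h3 hzb
    refine ⟨h3, ⟨hDE hz, ?_⟩, ⟨hDE hz, hamin z hz⟩⟩
    exact lt_of_le_of_ne (hbmax z hz) (fun h => hzb (hg (hDE hz) (hDE hb) h))
  have h3 : (D \ {b}).ncard ≤ (Lset M g ∩ (Pre M g (g b) ∩ Suf M g (g a))).ncard :=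
    Set.ncard_le_ncard hsub (sub_fin M (inter_subset_left.trans (Lset_sub M)))
  have h4 : (D \ {b}).ncard + 1 = D.ncard := Set.ncard_sdiff_singleton_add_one hb hDf
  have h5 := ncard_Pre_Suf M g (Lset_sub M : Lset M g ⊆ M.E) hab
  have h6 := ncard_Pre_add_Suf M g (Lset_sub M : Lset M g ⊆ M.E) (g a)
  rw [Lset_count M hg] at h5 h6
  have h7 := rk_Pre_add_Suf M g (le_refl (g a))
  have h8 : rk M (Pre M g (g a)) + rk M (Suf M g (g a)) ≤ rk M M.E := by omega
  have h9 : M.E \ Pre M g (g a) = Suf M g (g a) := by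
    ext z
    simp only [Pre, Suf, mem_sdiff, mem_ofPred_eq]
    constructor
    · rintro ⟨h1, h2⟩
      refine ⟨h1, ?_⟩
      by_contra h3
      exact h2 ⟨h1, by omega⟩
    · rintro ⟨h1, h2⟩
      exact ⟨h1, fun h3 => by omega⟩
  have hsep : Separator M (Pre M g (g a)) := sep_of_rk (Pre_sub M g _) (by rw [h9]; exact h8)
  have hempty : Pre M g (g a) = ∅ := by
    by_contra hne
    have h10 := hconn _ (Pre_sub M g _) (Set.nonempty_iff_ne_empty.2 hne) hsep
    have h11 : a ∈ Pre M g (g a) := by rw [h10]; exact hDE ha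
    exact absurd h11.2 (lt_irrefl _)
  have hsuf : Suf M g (g a) = M.E := by
    rw [← h9, hempty, sdiff_empty]
  rw [hempty, rk_empty] at h6 h8
  rw [hsuf] at h1
  refine ⟨?_, h2⟩
  have hsub' : D \ {b} ⊆ Lset M g ∩ Pre M g (g b) := fun z hz => ⟨(hsub hz).1, (hsub hz).2.1⟩
  have heq : D \ {b} = Lset M g ∩ Pre M g (g b) := by
    refine Set.eq_of_subset_of_ncard_le hsub' ?_
      (sub_fin M (inter_subset_left.trans (Lset_sub M)))
    rw [Lset_count M hg]
    omega
  rw [← heq, Set.insert_sdiff_singleton, Set.insert_eq_of_mem hb]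

theorem LP.FC_closure (hg : InjOn g M.E) (hLP : LP M g) (hconn : Conn M) {D : Set α}
    (hD : M.IsCircuit D) {y : α} (hyL : y ∉ Lset M g) (hyD : y ∈ D)
    (h : ∀ z ∈ D, z = y ∨ z ∈ Lset M g) :
    M.closure D = M.closure (Pre M g (g y + 1)) := by
  obtain ⟨h1, h2⟩ := hLP.FC_eq M hg hconn hD hyL hyD h
  have h3 : M.closure (Lset M g ∩ Pre M g (g y)) = M.closure (Pre M g (g y)) :=
    (hLP.Lset_basis M hg (g y)).closure_eq_closure
  have h4 : M.closure (Pre M g (g y)) = M.closure (Pre M g (g y + 1)) := by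
    apply subset_antisymm
    · exact M.closure_subset_closure (Pre_mono M g (Nat.le_succ _))
    · rw [Matroid.closure_subset_closure_iff_subset_closure (Pre_sub M g _)]
      exact subset_closure_of_rk M (Pre_mono M g (Nat.le_succ _)) (Pre_sub M g _) h2.le
  have h5 : D \ {y} = Lset M g ∩ Pre M g (g y) := by
    rw [h1]
    ext z
    simp only [mem_sdiff, mem_insert_iff, mem_singleton_iff]
    constructor
    · rintro ⟨h6 | h6, h7⟩
      · exact absurd h6 h7
      · exact h6
    · intro h6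
      refine ⟨Or.inr h6, ?_⟩
      rintro rfl
      exact hyL h6.1
  rw [← hD.closure_sdiff_singleton_eq y, h5, h3, h4]

/-- The fundamental circuit of an element outside a base. -/
theorem exists_FC {L : Set α} (hL : M.IsBase L) {y : α} (hy : y ∈ M.E) (hyL : y ∉ L) :
    ∃ D, M.IsCircuit D ∧ y ∈ D ∧ ∀ z ∈ D, z = y ∨ z ∈ L := by
  refine ⟨M.fundCircuit y L, hL.fundCircuit_isCircuit hy hyL, M.mem_fundCircuit y L, ?_⟩
  intro z hz
  exact M.fundCircuit_subset_insert y L hz

/-- Closures of initial segments are closed downwards. -/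
theorem LP.down_closed (hg : InjOn g M.E) (hLP : LP M g) (hconn : Conn M) (m : ℕ) {z z' : α}
    (hz : z ∈ M.closure (Pre M g m)) (hz' : z' ∈ M.E) (hle : g z' ≤ g z) :
    z' ∈ M.closure (Pre M g m) := by
  by_cases hzm : g z < m
  · exact M.subset_closure (Pre M g m) (Pre_sub M g m) ⟨hz', by omega⟩
  · have h1 : M.closure (Lset M g ∩ Pre M g m) = M.closure (Pre M g m) :=
      (hLP.Lset_basis M hg m).closure_eq_closure
    have hz2 : z ∈ M.closure (Lset M g ∩ Pre M g m) := by rw [h1]; exact hz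
    have hzn : z ∉ Lset M g ∩ Pre M g m := fun h => hzm h.2.2
    obtain ⟨D, hDs, hD, hzD⟩ := Matroid.exists_isCircuit_of_mem_closure hz2 hzn
    have hind : M.Indep (Lset M g) := (hLP.Lset_base M hg).indep
    have hzL : z ∉ Lset M g := by
      intro h
      refine hD.not_indep (hind.subset ?_)
      intro w hw
      rcases hDs hw with h2 | h2
      · rw [h2]; exact h
      · exact h2.1
    have hall : ∀ w ∈ D, w = z ∨ w ∈ Lset M g := by
      intro w hw
      rcases hDs hw with h2 | h2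
      · exact Or.inl h2
      · exact Or.inr h2.1
    have h3 := hLP.FC_closure M hg hconn hD hzL hzD hall
    have h4 : z' ∈ M.closure (Pre M g (g z + 1)) :=
      M.subset_closure _ (Pre_sub M g _) ⟨hz', by omega⟩
    rw [← h3, ← hD.closure_sdiff_singleton_eq z] at h4
    rw [← h1]
    refine M.closure_subset_closure ?_ h4
    rintro w ⟨hw, hwz⟩
    rcases hDs hw with h2 | h2
    · exact absurd h2 hwz
    · exact h2

/-! ### Reversal -/

theorem Pre_rev {T : ℕ} (hT : ∀ y ∈ M.E, g y < T) (t : ℕ) :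
    Pre M (fun y => T - g y) t = Suf M g (T + 1 - t) := by
  ext y
  simp only [Pre, Suf, mem_ofPred_eq]
  constructor
  · rintro ⟨h1, h2⟩
    have := hT y h1
    exact ⟨h1, by omega⟩
  · rintro ⟨h1, h2⟩
    have := hT y h1
    exact ⟨h1, by omega⟩

theorem Suf_rev {T : ℕ} (hT : ∀ y ∈ M.E, g y < T) (t : ℕ) :
    Suf M (fun y => T - g y) t = Pre M g (T + 1 - t) := by
  ext y
  simp only [Pre, Suf, mem_ofPred_eq]
  constructor
  · rintro ⟨h1, h2⟩
    have := hT y h1
    exact ⟨h1, by omega⟩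
  · rintro ⟨h1, h2⟩
    have := hT y h1
    exact ⟨h1, by omega⟩

theorem injOn_rev {T : ℕ} (hT : ∀ y ∈ M.E, g y < T) (hg : InjOn g M.E) :
    InjOn (fun y => T - g y) M.E := by
  intro x hx y hy h
  have h1 := hT x hx
  have h2 := hT y hy
  simp only at h
  exact hg hx hy (by omega)

theorem LP.rev {T : ℕ} (hT : ∀ y ∈ M.E, g y < T) (hLP : LP M g) : LP M (fun y => T - g y) := by
  intro B hB hcard h1 h2
  refine hLP B hB hcard (fun t => ?_) (fun t => ?_)
  · by_cases ht : t ≤ T + 1
    · have h3 := h2 (T + 1 - t)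
      rw [Suf_rev M hT] at h3
      rwa [show T + 1 - (T + 1 - t) = t by omega] at h3
    · rw [Pre_top M (fun y hy => by have := hT y hy; omega), inter_eq_left.2 hB, hcard]
  · by_cases ht : t ≤ T + 1
    · have h3 := h1 (T + 1 - t)
      rw [Pre_rev M hT] at h3
      rwa [show T + 1 - (T + 1 - t) = t by omega] at h3
    · rw [Suf_top M (fun y hy => by have := hT y hy; omega)]
      simp

/-- A connected matroid with the lattice path condition satisfies the structural condition. -/
theorem LP.phiConn (hg : InjOn g M.E) (hLP : LP M g) (hconn : Conn M) : PhiConn M := by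
  obtain ⟨T, hT⟩ := exists_bound M g
  set g' : α → ℕ := fun y => T - g y with hg'
  have hLP' : LP M g' := hLP.rev M hT
  have hinj' : InjOn g' M.E := injOn_rev M hT hg
  have hbL := hLP.Lset_base M hg
  have hbU := hLP'.Lset_base M hinj'
  -- description of the flats
  have hF : ∀ D, FC M (Lset M g) D → ∃ t, M.closure D = M.closure (Pre M g t) := by
    rintro D ⟨hD, y, hyL, hyD, hall⟩
    exact ⟨_, hLP.FC_closure M hg hconn hD hyL hyD hall⟩
  have hG : ∀ D, FC M (Lset M g') D → ∃ t, M.closure D = M.closure (Pre M g' t) := by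
    rintro D ⟨hD, y, hyL, hyD, hall⟩
    exact ⟨_, hLP'.FC_closure M hinj' hconn hD hyL hyD hall⟩
  have hPm : ∀ (f : α → ℕ) (s t : ℕ), M.closure (Pre M f s) ⊆ M.closure (Pre M f t) ∨
      M.closure (Pre M f t) ⊆ M.closure (Pre M f s) := by
    intro f s t
    rcases le_total s t with h | h
    · exact Or.inl (M.closure_subset_closure (Pre_mono M f h))
    · exact Or.inr (M.closure_subset_closure (Pre_mono M f h))
  refine ⟨Lset M g, Lset_sub M, Lset M g', Lset_sub M, ?_, ?_, ?_, ?_⟩
  · intro D₁ h1 D₂ h2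
    obtain ⟨s, hs⟩ := hF D₁ h1
    obtain ⟨t, ht⟩ := hF D₂ h2
    have e1 := M.subset_closure D₁ h1.1.subset_ground
    have e2 := M.subset_closure D₂ h2.1.subset_ground
    rw [hs] at e1 ⊢
    rw [ht] at e2 ⊢
    rcases hPm g s t with h | h
    · exact Or.inl (e1.trans h)
    · exact Or.inr (e2.trans h)
  · intro D₁ h1 D₂ h2
    obtain ⟨s, hs⟩ := hG D₁ h1
    obtain ⟨t, ht⟩ := hG D₂ h2
    have e1 := M.subset_closure D₁ h1.1.subset_ground
    have e2 := M.subset_closure D₂ h2.1.subset_ground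
    rw [hs] at e1 ⊢
    rw [ht] at e2 ⊢
    rcases hPm g' s t with h | h
    · exact Or.inl (e1.trans h)
    · exact Or.inr (e2.trans h)
  · intro D₁ h1 D₂ h2
    obtain ⟨s, hs⟩ := hF D₁ h1
    obtain ⟨t, ht⟩ := hG D₂ h2
    rw [hs, ht]
    by_cases hc : ∃ x, x ∈ M.closure (Pre M g s) ∧ x ∈ M.closure (Pre M g' t)
    · obtain ⟨x, hx1, hx2⟩ := hc
      refine Or.inr (fun y hy => ?_)
      have hxE : x ∈ M.E := M.closure_subset_ground _ hx1
      rcases le_total (g y) (g x) with h | h
      · exact Or.inl (hLP.down_closed M hg hconn s hx1 hy h)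
      · refine Or.inr (hLP'.down_closed M hinj' hconn t hx2 hy ?_)
        simp only [hg']
        omega
    · push Not at hc
      exact Or.inl hc
  · intro C hC
    have hCE := hC.subset_ground
    obtain ⟨a, ha, hamin⟩ := exists_min M hCE hC.nonempty g
    obtain ⟨b, hb, hbmax⟩ := exists_max M hCE hC.nonempty g
    have hbL' : b ∉ Lset M g := hLP.top_notMem M hg hC hb hbmax
    have haU : a ∉ Lset M g' := by
      refine hLP'.top_notMem M hinj' hC ha ?_
      intro c hc
      have := hamin c hc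
      simp only [hg']
      omega
    obtain ⟨D₁, hD₁, hbD, hall1⟩ := exists_FC M hbL (hCE hb) hbL'
    obtain ⟨D₂, hD₂, haD, hall2⟩ := exists_FC M hbU (hCE ha) haU
    have hc1 := hLP.FC_closure M hg hconn hD₁ hbL' hbD hall1
    have hc2 := hLP'.FC_closure M hinj' hconn hD₂ haU haD hall2
    have haT := hT a (hCE ha)
    have hsuf : Pre M g' (g' a + 1) = Suf M g (g a) := by
      rw [Pre_rev M hT]
      congr 1
      simp only [hg']
      omega
    rw [hsuf] at hc2
    obtain ⟨hcard, -⟩ := hLP.circuit M hg hC ha hb hamin hbmax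
    have hrC := circuit_rk M hC
    have hCF : C ⊆ Pre M g (g b + 1) := fun c hc => ⟨hCE hc, Nat.lt_succ_of_le (hbmax c hc)⟩
    have hCG : C ⊆ Suf M g (g a) := fun c hc => ⟨hCE hc, hamin c hc⟩
    have hCF' : C ⊆ M.closure D₁ := by
      rw [hc1]; exact hCF.trans (M.subset_closure _ (Pre_sub M g _))
    have hCG' : C ⊆ M.closure D₂ := by
      rw [hc2]; exact hCG.trans (M.subset_closure _ (Suf_sub M g _))
    have hrF : rk M (M.closure D₁) = rk M (Pre M g (g b + 1)) := by rw [hc1, rk_closure]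
    have hrG : rk M (M.closure D₂) = rk M (Suf M g (g a)) := by rw [hc2, rk_closure]
    have hab : g a ≤ g b + 1 := (hamin b hb).trans (Nat.le_succ _)
    have hunion : M.closure D₁ ∪ M.closure D₂ = M.E := by
      apply subset_antisymm
      · exact union_subset (M.closure_subset_ground _) (M.closure_subset_ground _)
      · rw [← Pre_union_Suf M g hab, hc1, hc2]
        exact union_subset_union (M.subset_closure _ (Pre_sub M g _))
          (M.subset_closure _ (Suf_sub M g _))
    have hsm := rk_submod M (M.closure D₁) (M.closure D₂)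
    rw [hunion, hrF, hrG] at hsm
    have hri : rk M (M.closure D₁ ∩ M.closure D₂) ≤ rk M C := by omega
    have hri' : rk M C ≤ rk M (M.closure D₁ ∩ M.closure D₂) :=
      rk_mono M (subset_inter hCF' hCG')
    refine ⟨D₁, ⟨hD₁, b, hbL', hbD, hall1⟩, D₂, ⟨hD₂, a, haU, haD, hall2⟩, hCF', hCG', ?_, ?_⟩
    · intro x hx1 hx2
      exact subset_closure_of_rk M (subset_inter hCF' hCG')
        (inter_subset_left.trans (M.closure_subset_ground _)) hri ⟨hx1, hx2⟩
    · -- modular pair
      obtain ⟨I₀, hI₀⟩ := M.exists_isBasis (M.closure D₁ ∩ M.closure D₂)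
        (inter_subset_left.trans (M.closure_subset_ground _))
      obtain ⟨I₁, hI₁, hI₀₁⟩ := hI₀.indep.subset_isBasis_of_subset
        (hI₀.subset.trans inter_subset_left) (M.closure_subset_ground D₁)
      obtain ⟨B, hB, hBI⟩ := hI₁.exists_isBase
      have hBE := hB.subset_ground
      have h1 : (B ∩ M.closure D₁).ncard = rk M (M.closure D₁) := by
        rw [← hBI]; exact basis_ncard M hI₁
      have h2 : I₀ ⊆ B ∩ (M.closure D₁ ∩ M.closure D₂) := by
        intro x hx
        refine ⟨?_, hI₀.subset hx⟩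
        have := hI₀₁ hx
        rw [hBI] at this
        exact this.1
      have h3 : rk M (M.closure D₁ ∩ M.closure D₂) ≤
          (B ∩ (M.closure D₁ ∩ M.closure D₂)).ncard := by
        rw [← basis_ncard M hI₀]
        exact Set.ncard_le_ncard h2 (sub_fin M (inter_subset_left.trans hBE))
      have h4 := Set.ncard_union_add_ncard_inter (B ∩ M.closure D₁) (B ∩ M.closure D₂)
        (sub_fin M (inter_subset_left.trans hBE)) (sub_fin M (inter_subset_left.trans hBE))
      rw [← Set.inter_union_distrib_left, hunion, inter_eq_left.2 hBE,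
        ← Set.inter_inter_distrib_left, base_ncard M hB] at h4
      have h5 : rk M (M.closure D₂) ≤ (B ∩ M.closure D₂).ncard := by omega
      have hb2 : M.IsBasis (B ∩ M.closure D₂) (M.closure D₂) :=
        isBasis_of_ncard M (hB.indep.subset inter_subset_left) inter_subset_right
          (M.closure_subset_ground _) h5
      have hb1 : M.IsBasis (B ∩ M.closure D₁) (M.closure D₁) :=
        isBasis_of_ncard M (hB.indep.subset inter_subset_left) inter_subset_right
          (M.closure_subset_ground _) h1.ge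
      refine ⟨B, hB.indep, B ∩ M.closure D₁, inter_subset_left, B ∩ M.closure D₂,
        inter_subset_left, inter_subset_right, ?_, inter_subset_right, ?_⟩
      · exact (M.subset_closure D₁ hD₁.subset_ground).trans hb1.subset_closure
      · exact (M.subset_closure D₂ hD₂.subset_ground).trans hb2.subset_closure

end

end Pool.Agent.LPM
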