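import Pool.Agent.LPM.Conn

/-!
# The structural condition gives an ordering with the lattice path condition
-/

set_option autoImplicit false
set_option linter.unusedSectionVars false

open Set
open scoped Matroid

namespace Pool.Agent.LPM

universe u

variable {α : Type u}

section

variable (M : Matroid α) [M.Finite]

/-- A chain of subsets of the ground set can be refined to an ordering. -/
theorem exists_order (F : Set (Set α)) (hF : ∀ X ∈ F, X ⊆ M.E)
    (hchain : ∀ X ∈ F, ∀ Y ∈ F, X ⊆ Y ∨ Y ⊆ X) :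
    ∃ g : α → ℕ, InjOn g M.E ∧ ∀ X ∈ F, ∀ y ∈ X, ∀ y' ∈ M.E, y' ∉ X → g y < g y' := by
  classical
  have hFfin : F.Finite := (M.ground_finite.finite_subsets).subset (fun X hX => hF X hX)
  obtain ⟨f, hf⟩ := Set.countable_iff_exists_injOn.1 M.ground_finite.countable
  obtain ⟨N, hN⟩ := exists_bound M f
  let k : α → ℕ := fun y => {X | X ∈ F ∧ y ∉ X}.ncard
  have hk : ∀ X ∈ F, ∀ y ∈ X, ∀ y' ∈ M.E, y' ∉ X → k y < k y' := by
    intro X hX y hy y' _ hy'
    apply Set.ncard_lt_ncard
    · constructor
      · rintro X' ⟨hX', hyX'⟩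
        refine ⟨hX', fun h => ?_⟩
        rcases hchain X hX X' hX' with h1 | h1
        · exact hyX' (h1 hy)
        · exact hy' (h1 h)
      · intro h
        exact (h ⟨hX, hy'⟩).2 hy
    · exact hFfin.subset (fun X' h => h.1)
  have hlt : ∀ y ∈ M.E, ∀ y' ∈ M.E, k y < k y' → k y * N + f y < k y' * N + f y' := by
    intro y hy y' _ h
    have h1 := hN y hy
    have h2 : (k y + 1) * N ≤ k y' * N := Nat.mul_le_mul_right N h
    rw [Nat.add_mul, one_mul] at h2
    omega
  refine ⟨fun y => k y * N + f y, ?_, ?_⟩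
  · intro y hy y' hy' h
    simp only at h
    rcases lt_trichotomy (k y) (k y') with h1 | h1 | h1
    · have := hlt y hy y' hy' h1
      omega
    · rw [h1] at h
      exact hf hy hy' (by omega)
    · have := hlt y' hy' y hy h1
      omega
  · intro X hX y hy y' hy' hn
    exact hlt y (hF X hX hy) y' hy' (hk X hX y hy y' hy' hn)

/-- Sets closed downwards are initial segments. -/
theorem eq_Pre (g : α → ℕ) {X : Set α} (hX : X ⊆ M.E)
    (h : ∀ y ∈ X, ∀ y' ∈ M.E, y' ∉ X → g y < g y') : ∃ t, X = Pre M g t := by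
  by_cases hne : (M.E \ X).Nonempty
  · obtain ⟨a, ha, hamin⟩ := exists_min M sdiff_subset hne g
    refine ⟨g a, ?_⟩
    ext y
    constructor
    · intro hy
      exact ⟨hX hy, h y hy a ha.1 ha.2⟩
    · rintro ⟨hy, hlt⟩
      by_contra hn
      have := hamin y ⟨hy, hn⟩
      omega
  · obtain ⟨T, hT⟩ := exists_bound M g
    refine ⟨T, ?_⟩
    rw [Pre_top M hT]
    apply subset_antisymm hX
    intro y hy
    by_contra hn
    exact hne ⟨y, hy, hn⟩

theorem PhiConn.exists_LP (h : PhiConn M) : ∃ g : α → ℕ, InjOn g M.E ∧ LP M g := by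
  obtain ⟨L, -, U, -, hL, hU, hLU, hcrit⟩ := h
  let F : Set (Set α) := {X | (∃ D, FC M L D ∧ X = M.closure D) ∨
    (∃ D, FC M U D ∧ X = M.E \ M.closure D)}
  have hFE : ∀ X ∈ F, X ⊆ M.E := by
    rintro X (⟨D, _, rfl⟩ | ⟨D, _, rfl⟩)
    · exact M.closure_subset_ground _
    · exact sdiff_subset
  have hmix : ∀ D₁, FC M L D₁ → ∀ D₂, FC M U D₂ →
      M.closure D₁ ⊆ M.E \ M.closure D₂ ∨ M.E \ M.closure D₂ ⊆ M.closure D₁ := by
    intro D₁ h1 D₂ h2
    rcases hLU D₁ h1 D₂ h2 with h | h
    · exact Or.inl (fun x hx => ⟨M.closure_subset_ground _ hx, h x hx⟩)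
    · refine Or.inr ?_
      rintro x ⟨hx, hx'⟩
      rcases h x hx with h3 | h3
      · exact h3
      · exact absurd h3 hx'
  have hchain : ∀ X ∈ F, ∀ Y ∈ F, X ⊆ Y ∨ Y ⊆ X := by
    rintro X (⟨D, hD, rfl⟩ | ⟨D, hD, rfl⟩) Y (⟨D', hD', rfl⟩ | ⟨D', hD', rfl⟩)
    · rcases hL D hD D' hD' with h | h
      · exact Or.inl (M.closure_subset_closure_of_subset_closure h)
      · exact Or.inr (M.closure_subset_closure_of_subset_closure h)
    · exact hmix D hD D' hD'
    · exact (hmix D' hD' D hD).symm
    · rcases hU D hD D' hD' with h | h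
      · exact Or.inr (sdiff_subset_sdiff_right (M.closure_subset_closure_of_subset_closure h))
      · exact Or.inl (sdiff_subset_sdiff_right (M.closure_subset_closure_of_subset_closure h))
  obtain ⟨g, hg, hgF⟩ := exists_order M F hFE hchain
  refine ⟨g, hg, ?_⟩
  intro B hB hcard hpre hsuf
  by_contra hnb
  have hdep : M.Dep B := by
    rw [← Matroid.not_indep_iff hB]
    intro hi
    exact hnb (isBase_of_ncard M hi hcard.ge)
  obtain ⟨C, hCB, hC⟩ := hdep.exists_isCircuit_subset
  obtain ⟨D₁, hD₁, D₂, hD₂, hC1, hC2, hCcl, B', hB', I, hIB, J, hJB, hI1, hI2, hJ1, hJ2⟩ :=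
    hcrit C hC
  have hF1 : M.closure D₁ ∈ F := Or.inl ⟨D₁, hD₁, rfl⟩
  have hF2 : M.E \ M.closure D₂ ∈ F := Or.inr ⟨D₂, hD₂, rfl⟩
  obtain ⟨s, hs⟩ := eq_Pre M g (M.closure_subset_ground D₁) (hgF _ hF1)
  obtain ⟨t, ht⟩ := eq_Pre M g sdiff_subset (hgF _ hF2)
  have ht' : M.closure D₂ = Suf M g t := by
    ext x
    have h1 : x ∈ M.E \ M.closure D₂ ↔ x ∈ Pre M g t := by rw [ht]
    simp only [mem_sdiff, Pre, Suf, mem_ofPred_eq] at h1 ⊢
    constructor
    · intro hx
      have hxE := M.closure_subset_ground _ hx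
      refine ⟨hxE, ?_⟩
      by_contra hlt
      exact (h1.2 ⟨hxE, by omega⟩).2 hx
    · rintro ⟨hxE, hle⟩
      by_contra hx
      have := (h1.1 ⟨hxE, hx⟩).2
      omega
  have hb1 := hpre s
  have hb2 := hsuf t
  rw [← hs] at hb1
  rw [← ht'] at hb2
  -- the two flats cover the ground set
  obtain ⟨c, hc⟩ := hC.nonempty
  have hts : t ≤ s := by
    have h1 := hC1 hc
    have h2 := hC2 hc
    rw [hs] at h1
    rw [ht'] at h2
    have := h1.2
    have := h2.2
    omega
  have hunion : M.closure D₁ ∪ M.closure D₂ = M.E := by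
    rw [hs, ht', Pre_union_Suf M g hts]
  have h4 := Set.ncard_union_add_ncard_inter (B ∩ M.closure D₁) (B ∩ M.closure D₂)
    (sub_fin M (inter_subset_left.trans hB)) (sub_fin M (inter_subset_left.trans hB))
  rw [← Set.inter_union_distrib_left, hunion, inter_eq_left.2 hB,
    ← Set.inter_inter_distrib_left, hcard] at h4
  -- the circuit lies in the intersection
  have h5 : C.ncard ≤ (B ∩ (M.closure D₁ ∩ M.closure D₂)).ncard :=
    Set.ncard_le_ncard (subset_inter hCB (subset_inter hC1 hC2))
      (sub_fin M (inter_subset_left.trans hB))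
  -- modularity
  have hIind : M.Indep I := hB'.subset hIB
  have hJind : M.Indep J := hB'.subset hJB
  have e1 : rk M (M.closure D₁) = I.ncard := by
    rw [← indep_rk M hIind]
    apply le_antisymm
    · rw [rk_closure, ← rk_closure M I]; exact rk_mono M hI2
    · exact rk_mono M hI1
  have e2 : rk M (M.closure D₂) = J.ncard := by
    rw [← indep_rk M hJind]
    apply le_antisymm
    · rw [rk_closure, ← rk_closure M J]; exact rk_mono M hJ2
    · exact rk_mono M hJ1
  have e3 := Set.ncard_union_add_ncard_inter I J (sub_fin M hIind.subset_ground)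
    (sub_fin M hJind.subset_ground)
  have e4 : (I ∪ J).ncard ≤ rk M M.E :=
    indep_ncard_le M (hB'.subset (union_subset hIB hJB))
      (union_subset hIind.subset_ground hJind.subset_ground)
  have e5 : (I ∩ J).ncard ≤ rk M C := by
    rw [← rk_closure M C]
    apply indep_ncard_le M (hIind.subset inter_subset_left)
    intro x hx
    exact hCcl x (hI1 hx.1) (hJ1 hx.2)
  have e6 := circuit_rk M hC
  omega

end

/-! ### Restriction to a separator and gluing -/

section

theorem Separator.mono_restrict {M : Matroid α} {K K' : Set α} (hK : Separator M K)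
    (hKE : K ⊆ M.E) (hK' : K' ⊆ K) (h : Separator (M ↾ K) K') : Separator M K' := by
  intro C hC
  rcases hK C hC with h1 | h1
  · exact h C ((Matroid.restrict_isCircuit_iff hKE).2 ⟨hC, h1⟩)
  · exact Or.inr (h1.mono_right hK')

theorem Separator.compl {M : Matroid α} {K : Set α} (hK : Separator M K) : Separator M (M.E \ K) := by
  intro C hC
  rcases hK C hC with h1 | h1
  · refine Or.inr ?_
    rw [Set.disjoint_left]
    intro x hx hx'
    exact hx'.2 (h1 hx)
  · exact Or.inl (fun x hx => ⟨hC.subset_ground hx, Set.disjoint_left.1 h1 hx⟩)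

theorem Separator.restrict {M : Matroid α} {K R : Set α} (hK : Separator M K) (hR : R ⊆ M.E) :
    Separator (M ↾ R) K := by
  intro C hC
  exact hK C ((Matroid.restrict_isCircuit_iff hR).1 hC).1

theorem Component.conn {M : Matroid α} {K : Set α} (h : Component M K) : Conn (M ↾ K) := by
  intro K' hK' hne hsep
  have hK'K : K' ⊆ K := hK'
  exact subset_antisymm hK' (h.2.2.2 K' hK'K hne (h.2.2.1.mono_restrict h.1 hK'K hsep))

variable {M : Matroid α} [M.Finite]

theorem rk_restrict {K X : Set α} (hX : X ⊆ K) : rk (M ↾ K) X = rk M X := by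
  rw [rk, rk, M.restrict_eRk_eq hX]

theorem Pre_restrict {K : Set α} (g : α → ℕ) (hK : K ⊆ M.E) (t : ℕ) :
    Pre (M ↾ K) g t = Pre M g t ∩ K := by
  ext y
  simp only [Pre, Matroid.restrict_ground_eq, mem_ofPred_eq, mem_inter_iff]
  constructor
  · rintro ⟨h1, h2⟩
    exact ⟨⟨hK h1, h2⟩, h1⟩
  · rintro ⟨⟨h1, h2⟩, h3⟩
    exact ⟨h3, h2⟩

theorem Suf_restrict {K : Set α} (g : α → ℕ) (hK : K ⊆ M.E) (t : ℕ) :
    Suf (M ↾ K) g t = Suf M g t ∩ K := by
  ext y
  simp only [Suf, Matroid.restrict_ground_eq, mem_ofPred_eq, mem_inter_iff]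
  constructor
  · rintro ⟨h1, h2⟩
    exact ⟨⟨hK h1, h2⟩, h1⟩
  · rintro ⟨⟨h1, h2⟩, h3⟩
    exact ⟨h3, h2⟩

theorem rk_split_inter {K : Set α} (hK : Separator M K) {X : Set α} (hX : X ⊆ M.E) :
    rk M X = rk M (X ∩ K) + rk M (X \ K) := by
  rw [← hK.rk_split inter_subset_right Set.disjoint_sdiff_left (inter_subset_left.trans hX)
    (sdiff_subset.trans hX), Set.inter_union_sdiff]

/-- The lattice path condition passes to separators. -/
theorem LP.restrict {g : α → ℕ} (hLP : LP M g) {K : Set α} (hKE : K ⊆ M.E) (hK : Separator M K) :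
    LP (M ↾ K) g := by
  intro B hB hcard hpre hsuf
  have hBK : B ⊆ K := hB
  simp only [Matroid.restrict_ground_eq] at hcard
  rw [rk_restrict (Subset.refl K)] at hcard
  obtain ⟨B', hB'⟩ := M.exists_isBasis (M.E \ K) sdiff_subset
  have hBE : B ⊆ M.E := hBK.trans hKE
  have hB'E : B' ⊆ M.E := hB'.indep.subset_ground
  have hd : Disjoint B B' := by
    rw [Set.disjoint_left]
    intro x hx hx'
    exact (hB'.subset hx').2 (hBK hx)
  have key : ∀ S ⊆ M.E, (B ∩ S).ncard ≤ rk M (S ∩ K) → ((B ∪ B') ∩ S).ncard ≤ rk M S := by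
    intro S hS h1
    rw [Set.union_inter_distrib_right, Set.ncard_union_eq
      (hd.mono inter_subset_left inter_subset_left) (sub_fin M (inter_subset_left.trans hBE))
      (sub_fin M (inter_subset_left.trans hB'E)), rk_split_inter hK hS]
    refine add_le_add h1 ?_
    apply indep_ncard_le M (hB'.indep.subset inter_subset_left)
    rintro x ⟨hx, hx'⟩
    exact ⟨hx', (hB'.subset hx).2⟩
  have hbase : M.IsBase (B ∪ B') := by
    refine hLP _ (union_subset hBE hB'E) ?_ (fun t => ?_) (fun t => ?_)
    · rw [Set.ncard_union_eq hd (sub_fin M hBE) (sub_fin M hB'E), hcard, basis_ncard M hB',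
        rk_split_inter hK (Subset.refl M.E), inter_eq_right.2 hKE]
    · apply key _ (Pre_sub M g t)
      have h1 := hpre t
      rw [Pre_restrict g hKE, rk_restrict inter_subset_right] at h1
      have h2 : B ∩ (Pre M g t ∩ K) = B ∩ Pre M g t := by
        rw [← inter_assoc]
        exact inter_eq_left.2 (inter_subset_left.trans hBK)
      rwa [h2] at h1
    · apply key _ (Suf_sub M g t)
      have h1 := hsuf t
      rw [Suf_restrict g hKE, rk_restrict inter_subset_right] at h1
      have h2 : B ∩ (Suf M g t ∩ K) = B ∩ Suf M g t := by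
        rw [← inter_assoc]
        exact inter_eq_left.2 (inter_subset_left.trans hBK)
      rwa [h2] at h1
  rw [Matroid.isBase_restrict_iff hKE]
  exact isBasis_of_ncard M (hbase.indep.subset subset_union_left) hBK hKE hcard.ge

/-- Gluing orderings along a separator. -/
theorem LP.glue {K : Set α} (hKE : K ⊆ M.E) (hK : Separator M K) {g₁ g₂ : α → ℕ}
    (hg₁ : InjOn g₁ K) (hg₂ : InjOn g₂ (M.E \ K)) (h₁ : LP (M ↾ K) g₁)
    (h₂ : LP (M ↾ (M.E \ K)) g₂) : ∃ g : α → ℕ, InjOn g M.E ∧ LP M g := by
  classical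
  obtain ⟨N, hN⟩ := exists_bound M g₁
  let g : α → ℕ := fun y => if y ∈ K then g₁ y else N + g₂ y
  have hgK : ∀ y ∈ K, g y = g₁ y := fun y hy => if_pos hy
  have hgn : ∀ y, y ∉ K → g y = N + g₂ y := fun y hy => if_neg hy
  have hlt : ∀ y ∈ K, g y < N := fun y hy => by rw [hgK y hy]; exact hN y (hKE hy)
  have hge : ∀ y, y ∉ K → N ≤ g y := fun y hy => by rw [hgn y hy]; omega
  refine ⟨g, ?_, ?_⟩
  · intro x hx y hy h
    by_cases h1 : x ∈ K <;> by_cases h2 : y ∈ K
    · rw [hgK x h1, hgK y h2] at h
      exact hg₁ h1 h2 h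
    · have := hlt x h1
      have := hge y h2
      omega
    · have := hlt y h2
      have := hge x h1
      omega
    · rw [hgn x h1, hgn y h2] at h
      exact hg₂ ⟨hx, h1⟩ ⟨hy, h2⟩ (by omega)
  · intro B hB hcard hpre hsuf
    have hcK : (M.E \ K) ⊆ M.E := sdiff_subset
    have hsplit : rk M M.E = rk M K + rk M (M.E \ K) := by
      rw [rk_split_inter hK (Subset.refl M.E), inter_eq_right.2 hKE]
    have hPN : Pre M g N = K := by
      ext y
      constructor
      · rintro ⟨h1, h2⟩
        by_contra h3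
        have := hge y h3
        omega
      · intro h1
        exact ⟨hKE h1, hlt y h1⟩
    have hSN : Suf M g N = M.E \ K := by
      ext y
      constructor
      · rintro ⟨h1, h2⟩
        refine ⟨h1, fun h3 => ?_⟩
        have := hlt y h3
        omega
      · rintro ⟨h1, h2⟩
        exact ⟨h1, hge y h2⟩
    have hsum := ncard_Pre_add_Suf M g hB N
    have hb1 := hpre N
    have hb2 := hsuf N
    rw [hPN, hSN] at hsum
    rw [hPN] at hb1
    rw [hSN] at hb2
    have hc1 : (B ∩ K).ncard = rk M K := by omega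
    have hc2 : (B ∩ (M.E \ K)).ncard = rk M (M.E \ K) := by omega
    -- segments of the pieces
    have hP1 : ∀ t, t ≤ N → Pre (M ↾ K) g₁ t = Pre M g t := by
      intro t ht
      ext y
      simp only [Pre, Matroid.restrict_ground_eq, mem_ofPred_eq]
      constructor
      · rintro ⟨h1, h2⟩
        exact ⟨hKE h1, by rw [hgK y h1]; exact h2⟩
      · rintro ⟨h1, h2⟩
        by_cases h3 : y ∈ K
        · exact ⟨h3, by rw [← hgK y h3]; exact h2⟩
        · have := hge y h3
          omega
    have hS1 : ∀ t, t ≤ N → Suf M g t = Suf (M ↾ K) g₁ t ∪ (M.E \ K) := by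
      intro t ht
      ext y
      simp only [Suf, Matroid.restrict_ground_eq, mem_ofPred_eq, mem_union, mem_sdiff]
      constructor
      · rintro ⟨h1, h2⟩
        by_cases h3 : y ∈ K
        · exact Or.inl ⟨h3, by rw [← hgK y h3]; exact h2⟩
        · exact Or.inr ⟨h1, h3⟩
      · rintro (⟨h1, h2⟩ | ⟨h1, h2⟩)
        · exact ⟨hKE h1, by rw [hgK y h1]; exact h2⟩
        · exact ⟨h1, ht.trans (hge y h2)⟩
    have hS2 : ∀ t, Suf (M ↾ (M.E \ K)) g₂ t = Suf M g (N + t) := by
      intro t
      ext y
      simp only [Suf, Matroid.restrict_ground_eq, mem_ofPred_eq, mem_sdiff]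
      constructor
      · rintro ⟨⟨h1, h3⟩, h2⟩
        exact ⟨h1, by rw [hgn y h3]; omega⟩
      · rintro ⟨h1, h2⟩
        by_cases h3 : y ∈ K
        · have := hlt y h3
          omega
        · rw [hgn y h3] at h2
          exact ⟨⟨h1, h3⟩, by omega⟩
    have hP2 : ∀ t, Pre M g (N + t) = Pre (M ↾ (M.E \ K)) g₂ t ∪ K := by
      intro t
      ext y
      simp only [Pre, Matroid.restrict_ground_eq, mem_ofPred_eq, mem_sdiff, mem_union]
      constructor
      · rintro ⟨h1, h2⟩
        by_cases h3 : y ∈ K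
        · exact Or.inr h3
        · rw [hgn y h3] at h2
          exact Or.inl ⟨⟨h1, h3⟩, by omega⟩
      · rintro (⟨⟨h1, h3⟩, h2⟩ | h3)
        · exact ⟨h1, by rw [hgn y h3]; omega⟩
        · exact ⟨hKE h3, by have := hlt y h3; omega⟩
    have hfin : ∀ X : Set α, (B ∩ X).Finite := fun X => sub_fin M (inter_subset_left.trans hB)
    -- the first piece
    have hbase1 : (M ↾ K).IsBase (B ∩ K) := by
      refine h₁ _ inter_subset_right ?_ (fun t => ?_) (fun t => ?_)
      · rw [Matroid.restrict_ground_eq, rk_restrict (Subset.refl K)]; exact hc1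
      · have hsub : Pre (M ↾ K) g₁ t ⊆ K := Pre_sub (M ↾ K) g₁ t
        rw [rk_restrict hsub, inter_assoc, inter_eq_right.2 hsub]
        by_cases ht : t ≤ N
        · rw [hP1 t ht]; exact hpre t
        · have h3 : Pre (M ↾ K) g₁ t = K := by
            ext y
            constructor
            · intro h; exact h.1
            · intro h
              exact ⟨h, by have := hN y (hKE h); omega⟩
          rw [h3, hc1]
      · have hsub : Suf (M ↾ K) g₁ t ⊆ K := Suf_sub (M ↾ K) g₁ t
        rw [rk_restrict hsub, inter_assoc, inter_eq_right.2 hsub]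
        by_cases ht : t ≤ N
        · have h3 := hsuf t
          have hd : Disjoint (Suf (M ↾ K) g₁ t) (M.E \ K) := by
            rw [Set.disjoint_left]
            intro x hx hx'
            exact hx'.2 (hsub hx)
          rw [hS1 t ht, inter_union_distrib_left, Set.ncard_union_eq
            (hd.mono inter_subset_right inter_subset_right) (hfin _) (hfin _), hc2,
            hK.rk_split hsub Set.disjoint_sdiff_left (hsub.trans hKE) sdiff_subset] at h3
          omega
        · have h3 : Suf (M ↾ K) g₁ t = ∅ := by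
            ext y
            simp only [Suf, Matroid.restrict_ground_eq, mem_ofPred_eq, mem_empty_iff_false,
              iff_false]
            rintro ⟨h4, h5⟩
            have := hN y (hKE h4)
            omega
          rw [h3]; simp
    -- the second piece
    have hbase2 : (M ↾ (M.E \ K)).IsBase (B ∩ (M.E \ K)) := by
      refine h₂ _ inter_subset_right ?_ (fun t => ?_) (fun t => ?_)
      · rw [Matroid.restrict_ground_eq, rk_restrict (Subset.refl _)]; exact hc2
      · have hsub : Pre (M ↾ (M.E \ K)) g₂ t ⊆ M.E \ K := Pre_sub (M ↾ (M.E \ K)) g₂ t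
        rw [rk_restrict hsub, inter_assoc, inter_eq_right.2 hsub]
        have h3 := hpre (N + t)
        have hd : Disjoint (Pre (M ↾ (M.E \ K)) g₂ t) K := by
          rw [Set.disjoint_left]
          intro x hx hx'
          exact (hsub hx).2 hx'
        rw [hP2 t, inter_union_distrib_left, Set.ncard_union_eq
          (hd.mono inter_subset_right inter_subset_right) (hfin _) (hfin _), hc1,
          Set.union_comm, hK.rk_split (Subset.refl K) hd hKE (hsub.trans sdiff_subset)] at h3
        omega
      · have hsub : Suf (M ↾ (M.E \ K)) g₂ t ⊆ M.E \ K := Suf_sub (M ↾ (M.E \ K)) g₂ t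
        rw [rk_restrict hsub, inter_assoc, inter_eq_right.2 hsub, hS2 t]
        exact hsuf (N + t)
    rw [Matroid.isBase_restrict_iff hKE] at hbase1
    rw [Matroid.isBase_restrict_iff hcK] at hbase2
    have hind : M.Indep ((B ∩ K) ∪ (B ∩ (M.E \ K))) :=
      hK.indep_union hbase1.indep hbase2.indep inter_subset_right
        (Set.disjoint_sdiff_left.mono_left inter_subset_right)
    have hBeq : (B ∩ K) ∪ (B ∩ (M.E \ K)) = B := by
      rw [← inter_union_distrib_left, Set.union_sdiff_cancel hKE, inter_eq_left.2 hB]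
    rw [hBeq] at hind
    exact isBase_of_ncard M hind hcard.ge

end

/-- If all components have good orderings, so does the whole matroid. -/
theorem exists_LP_of_comp (n : ℕ) : ∀ (M : Matroid α) [M.Finite], M.E.ncard ≤ n →
    (∀ K, Component M K → ∃ g : α → ℕ, InjOn g K ∧ LP (M ↾ K) g) →
    ∃ g : α → ℕ, InjOn g M.E ∧ LP M g := by
  induction n with
  | zero =>
    intro M _ hn _
    have hE : M.E = ∅ := by
      rw [Nat.le_zero, Set.ncard_eq_zero M.ground_finite] at hn
      exact hn
    refine ⟨fun _ => 0, by rw [hE]; exact injOn_empty _, ?_⟩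
    intro B hB _ _ _
    rw [hE, subset_empty_iff] at hB
    obtain ⟨B', hB'⟩ := M.exists_isBase
    have h1 := hB'.subset_ground
    rw [hE, subset_empty_iff] at h1
    rw [hB, ← h1]
    exact hB'
  | succ n ih =>
    intro M _ hn hcomp
    by_cases hne : M.E.Nonempty
    · -- a minimal nonempty separator
      let S : Set (Set α) := {K | K ⊆ M.E ∧ K.Nonempty ∧ Separator M K}
      have hSfin : S.Finite := M.ground_finite.finite_subsets.subset (fun K hK => hK.1)
      have hSne : S.Nonempty :=
        ⟨M.E, Subset.refl _, hne, fun C hC => Or.inl hC.subset_ground⟩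
      obtain ⟨K, hKmin⟩ := hSfin.exists_minimal hSne
      have hK : Component M K := by
        refine ⟨hKmin.prop.1, hKmin.prop.2.1, hKmin.prop.2.2, ?_⟩
        intro K' hK' hne' hsep'
        exact hKmin.le_of_le ⟨hK'.trans hKmin.prop.1, hne', hsep'⟩ hK'
      obtain ⟨g₁, hg₁, h₁⟩ := hcomp K hK
      have hfinR : (M ↾ (M.E \ K)).Finite := by
        constructor
        exact M.ground_finite.subset sdiff_subset
      obtain ⟨g₂, hg₂, h₂⟩ := ih (M ↾ (M.E \ K)) (by
        have hlt : (M.E \ K).ncard < M.E.ncard := by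
          apply Set.ncard_lt_ncard _ M.ground_finite
          refine ⟨sdiff_subset, fun h => ?_⟩
          obtain ⟨x, hx⟩ := hK.2.1
          exact (h (hK.1 hx)).2 hx
        rw [Matroid.restrict_ground_eq]
        omega) (by
        intro K' hK'
        have hK'sub : K' ⊆ M.E \ K := hK'.1
        have hcsep : Separator M (M.E \ K) := hK.2.2.1.compl
        have hK'M : Component M K' := by
          refine ⟨hK'sub.trans sdiff_subset, hK'.2.1,
            hcsep.mono_restrict sdiff_subset hK'sub hK'.2.2.1, ?_⟩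
          intro K'' hK'' hne'' hsep''
          exact hK'.2.2.2 K'' hK'' hne'' (hsep''.restrict sdiff_subset)
        obtain ⟨g, hg, hLP⟩ := hcomp K' hK'M
        refine ⟨g, hg, ?_⟩
        rwa [Matroid.restrict_restrict_eq M hK'sub])
      exact LP.glue hK.1 hK.2.2.1 hg₁ hg₂ h₁ h₂
    · exact ih M (by
        rw [Set.not_nonempty_iff_eq_empty] at hne
        rw [hne]; simp) hcomp

/-- The structural condition for all lattice path matroids. -/
def PhiAll (M : Matroid α) : Prop := ∀ K, Component M K → PhiConn (M ↾ K)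

theorem exists_LP_iff (M : Matroid α) [M.Finite] :
    (∃ g : α → ℕ, InjOn g M.E ∧ LP M g) ↔ PhiAll M := by
  constructor
  · rintro ⟨g, hg, hLP⟩ K hK
    have hfinR : (M ↾ K).Finite := ⟨M.ground_finite.subset hK.1⟩
    exact LP.phiConn (M ↾ K) (hg.mono hK.1) (hLP.restrict hK.1 hK.2.2.1) hK.conn
  · intro h
    refine exists_LP_of_comp M.E.ncard M le_rfl (fun K hK => ?_)
    have hfinR : (M ↾ K).Finite := ⟨M.ground_finite.subset hK.1⟩
    exact PhiConn.exists_LP (M ↾ K) (h K hK)

end Pool.Agent.LPM
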