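import Pool.Agent.LPM.Rank

/-!
# The lattice path condition with respect to an ordering
-/

set_option autoImplicit false
set_option linter.unusedSectionVars false

open Set

namespace Pool.Agent.LPM

universe u

variable {α : Type u}

/-- Elements with label `< t`. -/
def Pre (M : Matroid α) (g : α → ℕ) (t : ℕ) : Set α := {y | y ∈ M.E ∧ g y < t}

/-- Elements with label `≥ t`. -/
def Suf (M : Matroid α) (g : α → ℕ) (t : ℕ) : Set α := {y | y ∈ M.E ∧ t ≤ g y}

/-- The lattice path condition: every set of the size of a base which meets every initial and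
every final segment in at most rank many elements is a base. -/
def LP (M : Matroid α) (g : α → ℕ) : Prop :=
  ∀ B ⊆ M.E, B.ncard = rk M M.E → (∀ t, (B ∩ Pre M g t).ncard ≤ rk M (Pre M g t)) →
    (∀ t, (B ∩ Suf M g t).ncard ≤ rk M (Suf M g t)) → M.IsBase B

section

variable (M : Matroid α) (g : α → ℕ)

theorem Pre_sub (t : ℕ) : Pre M g t ⊆ M.E := fun _ h => h.1

theorem Suf_sub (t : ℕ) : Suf M g t ⊆ M.E := fun _ h => h.1

theorem Pre_union_Suf {j k : ℕ} (h : j ≤ k) : Pre M g k ∪ Suf M g j = M.E := by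
  ext y
  constructor
  · rintro (h | h)
    · exact h.1
    · exact h.1
  · intro hy
    by_cases h1 : g y < k
    · exact Or.inl ⟨hy, h1⟩
    · exact Or.inr ⟨hy, by omega⟩

theorem Pre_inter_Suf_self (k : ℕ) : Pre M g k ∩ Suf M g k = ∅ := by
  ext y
  simp only [Pre, Suf, mem_inter_iff, mem_ofPred_eq, mem_empty_iff_false, iff_false]
  rintro ⟨h1, h2⟩
  omega

theorem Pre_zero : Pre M g 0 = ∅ := by
  ext y; simp [Pre]

theorem Suf_zero : Suf M g 0 = M.E := by
  ext y; simp [Suf]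

theorem Pre_mono {j k : ℕ} (h : j ≤ k) : Pre M g j ⊆ Pre M g k := fun _ hy => ⟨hy.1, by
  have := hy.2; omega⟩

theorem Suf_anti {j k : ℕ} (h : j ≤ k) : Suf M g k ⊆ Suf M g j := fun _ hy => ⟨hy.1, by
  have := hy.2; omega⟩

end

section

variable (M : Matroid α) [M.Finite] (g : α → ℕ)

theorem exists_bound : ∃ T, ∀ y ∈ M.E, g y < T := by
  obtain ⟨T, hT⟩ := (M.ground_finite.image g).bddAbove
  exact ⟨T + 1, fun y hy => Nat.lt_succ_of_le (hT (mem_image_of_mem g hy))⟩

theorem ncard_Pre_Suf {X : Set α} (hX : X ⊆ M.E) {j k : ℕ} (h : j ≤ k) :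
    (X ∩ Pre M g k).ncard + (X ∩ Suf M g j).ncard =
      X.ncard + (X ∩ (Pre M g k ∩ Suf M g j)).ncard := by
  have h1 := Set.ncard_union_add_ncard_inter (X ∩ Pre M g k) (X ∩ Suf M g j)
    (sub_fin M (inter_subset_left.trans hX)) (sub_fin M (inter_subset_left.trans hX))
  rw [← Set.inter_union_distrib_left, Pre_union_Suf M g h, Set.inter_eq_left.2 hX,
    ← Set.inter_inter_distrib_left] at h1
  omega

theorem ncard_Pre_add_Suf {X : Set α} (hX : X ⊆ M.E) (k : ℕ) :
    (X ∩ Pre M g k).ncard + (X ∩ Suf M g k).ncard = X.ncard := by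
  rw [ncard_Pre_Suf M g hX le_rfl, Pre_inter_Suf_self]
  simp

/-- Every independent set obeys the interval bounds. -/
theorem indep_interval {X : Set α} (hX : M.Indep X) {j k : ℕ} (h : j ≤ k) :
    (X ∩ (Pre M g k ∩ Suf M g j)).ncard + rk M M.E ≤ rk M (Pre M g k) + rk M (Suf M g j) := by
  have h1 := rk_submod M (Pre M g k) (Suf M g j)
  rw [Pre_union_Suf M g h] at h1
  have h2 := indep_ncard_le M (hX.subset (inter_subset_left : X ∩ (Pre M g k ∩ Suf M g j) ⊆ X))
    inter_subset_right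
  omega

theorem rk_Pre_add_Suf {j k : ℕ} (h : j ≤ k) :
    rk M M.E ≤ rk M (Pre M g k) + rk M (Suf M g j) := by
  have := indep_interval M g M.empty_indep h
  omega

variable {g}

theorem Pre_succ_sub (hg : InjOn g M.E) (t : ℕ) :
    Pre M g (t + 1) = Pre M g t ∨ ∃ y ∈ M.E, g y = t ∧ Pre M g (t + 1) = insert y (Pre M g t) := by
  by_cases h : ∃ y ∈ M.E, g y = t
  · obtain ⟨y, hy, hyt⟩ := h
    refine Or.inr ⟨y, hy, hyt, ?_⟩
    ext z
    simp only [Pre, mem_ofPred_eq, mem_insert_iff]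
    constructor
    · rintro ⟨h1, h2⟩
      by_cases h3 : g z = t
      · exact Or.inl (hg h1 hy (by rw [h3, hyt]))
      · exact Or.inr ⟨h1, by omega⟩
    · rintro (rfl | ⟨h1, h2⟩)
      · exact ⟨hy, by omega⟩
      · exact ⟨h1, by omega⟩
  · push Not at h
    refine Or.inl ?_
    ext z
    simp only [Pre, mem_ofPred_eq]
    constructor
    · rintro ⟨h1, h2⟩
      have := h z h1
      exact ⟨h1, by omega⟩
    · rintro ⟨h1, h2⟩
      exact ⟨h1, by omega⟩

theorem Suf_succ_sub (hg : InjOn g M.E) (t : ℕ) :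
    Suf M g t = Suf M g (t + 1) ∨ ∃ y ∈ M.E, g y = t ∧ Suf M g t = insert y (Suf M g (t + 1)) := by
  by_cases h : ∃ y ∈ M.E, g y = t
  · obtain ⟨y, hy, hyt⟩ := h
    refine Or.inr ⟨y, hy, hyt, ?_⟩
    ext z
    simp only [Suf, mem_ofPred_eq, mem_insert_iff]
    constructor
    · rintro ⟨h1, h2⟩
      by_cases h3 : g z = t
      · exact Or.inl (hg h1 hy (by rw [h3, hyt]))
      · exact Or.inr ⟨h1, by omega⟩
    · rintro (rfl | ⟨h1, h2⟩)
      · exact ⟨hy, by omega⟩
      · exact ⟨h1, by omega⟩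
  · push Not at h
    refine Or.inl ?_
    ext z
    simp only [Suf, mem_ofPred_eq]
    constructor
    · rintro ⟨h1, h2⟩
      have := h z h1
      exact ⟨h1, by omega⟩
    · rintro ⟨h1, h2⟩
      exact ⟨h1, by omega⟩

theorem rk_Pre_succ (hg : InjOn g M.E) (t : ℕ) :
    rk M (Pre M g (t + 1)) ≤ rk M (Pre M g t) + 1 := by
  rcases Pre_succ_sub M hg t with h | ⟨y, _, _, h⟩
  · rw [h]; omega
  · rw [h]; exact rk_insert_le M _ _

theorem rk_Suf_succ (hg : InjOn g M.E) (t : ℕ) :
    rk M (Suf M g t) ≤ rk M (Suf M g (t + 1)) + 1 := by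
  rcases Suf_succ_sub M hg t with h | ⟨y, _, _, h⟩
  · rw [h]; omega
  · rw [h]; exact rk_insert_le M _ _

/-- A set built from a unit step counting function has the prescribed counts. -/
theorem count_steps (hg : InjOn g M.E) (f : ℕ → ℕ) (h0 : f 0 = 0)
    (hmono : ∀ t, f t ≤ f (t + 1)) (hstep : ∀ t, f (t + 1) ≤ f t + 1)
    (hno : ∀ t, (∀ y ∈ M.E, g y ≠ t) → f (t + 1) = f t) (t : ℕ) :
    ({y | y ∈ M.E ∧ f (g y) < f (g y + 1)} ∩ Pre M g t).ncard = f t := by
  induction t with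
  | zero => rw [Pre_zero]; simp [h0]
  | succ t ih =>
    by_cases h : ∃ y ∈ M.E, g y = t
    · obtain ⟨y, hy, hyt⟩ := h
      by_cases hlt : f t < f (t + 1)
      · have hset : {y | y ∈ M.E ∧ f (g y) < f (g y + 1)} ∩ Pre M g (t + 1) =
            insert y ({y | y ∈ M.E ∧ f (g y) < f (g y + 1)} ∩ Pre M g t) := by
          ext z
          simp only [Pre, mem_ofPred_eq, mem_insert_iff, mem_inter_iff]
          constructor
          · rintro ⟨⟨h1, h2⟩, ⟨h3, h4⟩⟩
            by_cases h5 : g z = t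
            · exact Or.inl (hg h1 hy (by rw [h5, hyt]))
            · exact Or.inr ⟨⟨h1, h2⟩, ⟨h1, by omega⟩⟩
          · rintro (rfl | ⟨⟨h1, h2⟩, ⟨h3, h4⟩⟩)
            · exact ⟨⟨hy, by rw [hyt]; exact hlt⟩, ⟨hy, by omega⟩⟩
            · exact ⟨⟨h1, h2⟩, ⟨h1, by omega⟩⟩
        rw [hset, Set.ncard_insert_of_notMem (by rintro ⟨_, _, h6⟩; omega)
          (sub_fin M (fun z hz => hz.1.1)), ih]
        have := hstep t
        omega
      · have hset : {y | y ∈ M.E ∧ f (g y) < f (g y + 1)} ∩ Pre M g (t + 1) =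
            ({y | y ∈ M.E ∧ f (g y) < f (g y + 1)} ∩ Pre M g t) := by
          ext z
          simp only [Pre, mem_ofPred_eq, mem_inter_iff]
          constructor
          · rintro ⟨⟨h1, h2⟩, ⟨h3, h4⟩⟩
            refine ⟨⟨h1, h2⟩, ⟨h1, ?_⟩⟩
            by_contra h5
            have h6 : g z = t := by omega
            rw [h6] at h2
            exact hlt h2
          · rintro ⟨⟨h1, h2⟩, ⟨h3, h4⟩⟩
            exact ⟨⟨h1, h2⟩, ⟨h1, by omega⟩⟩
        rw [hset, ih]
        have := hmono t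
        omega
    · push Not at h
      have hset : Pre M g (t + 1) = Pre M g t := by
        ext z
        simp only [Pre, mem_ofPred_eq]
        constructor
        · rintro ⟨h1, h2⟩
          have := h z h1
          exact ⟨h1, by omega⟩
        · rintro ⟨h1, h2⟩
          exact ⟨h1, by omega⟩
      rw [hset, ih, hno t h]

/-- The greedy height function. -/
noncomputable def low (M : Matroid α) (g : α → ℕ) (X : Set α) : ℕ → ℕ
  | 0 => 0
  | t + 1 => max (low M g X t + (X ∩ {y | g y = t}).ncard) (rk M M.E - rk M (Suf M g (t + 1)))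

theorem ncard_level_le (hg : InjOn g M.E) {X : Set α} (hX : X ⊆ M.E) (t : ℕ) :
    (X ∩ {y | g y = t}).ncard ≤ 1 := by
  have hf : (X ∩ {y | g y = t}).Finite := sub_fin M (inter_subset_left.trans hX)
  rw [Set.ncard_le_one hf]
  rintro a ⟨ha, ha'⟩ b ⟨hb, hb'⟩
  exact hg (hX ha) (hX hb) (by rw [ha', hb'])

theorem ncard_interval_succ {X : Set α} (hX : X ⊆ M.E) {j k : ℕ} (h : j ≤ k) :
    (X ∩ (Pre M g (k + 1) ∩ Suf M g j)).ncard =
      (X ∩ (Pre M g k ∩ Suf M g j)).ncard + (X ∩ {y | g y = k}).ncard := by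
  have hd : Disjoint (X ∩ (Pre M g k ∩ Suf M g j)) (X ∩ {y | g y = k}) := by
    rw [Set.disjoint_left]
    rintro z ⟨_, ⟨_, h2⟩, _⟩ ⟨_, h3⟩
    simp only [mem_ofPred_eq] at h3
    omega
  rw [← Set.ncard_union_eq hd (sub_fin M (inter_subset_left.trans hX))
    (sub_fin M (inter_subset_left.trans hX))]
  congr 1
  ext z
  simp only [Pre, Suf, mem_inter_iff, mem_ofPred_eq, mem_union]
  constructor
  · rintro ⟨h1, ⟨h2, h3⟩, ⟨h4, h5⟩⟩
    by_cases h6 : g z = k
    · exact Or.inr ⟨h1, h6⟩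
    · exact Or.inl ⟨h1, ⟨h2, by omega⟩, ⟨h4, h5⟩⟩
  · rintro (⟨h1, ⟨h2, h3⟩, ⟨h4, h5⟩⟩ | ⟨h1, h2⟩)
    · exact ⟨h1, ⟨h2, by omega⟩, ⟨h4, h5⟩⟩
    · exact ⟨h1, ⟨hX h1, by omega⟩, ⟨hX h1, by omega⟩⟩

/-- Sets obeying the interval bounds are independent. -/
theorem LP.indep_of_interval (hg : InjOn g M.E) (hLP : LP M g) {X : Set α} (hX : X ⊆ M.E)
    (h : ∀ j k, j ≤ k →
      (X ∩ (Pre M g k ∩ Suf M g j)).ncard + rk M M.E ≤ rk M (Pre M g k) + rk M (Suf M g j)) :
    M.Indep X := by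
  classical
  set f := low M g X with hf
  have hs0 : rk M (Suf M g 0) = rk M M.E := by rw [Suf_zero]
  have hsle : ∀ t, rk M (Suf M g t) ≤ rk M M.E := fun t => rk_mono M (Suf_sub M g t)
  have hfs : ∀ t, f (t + 1) =
      max (f t + (X ∩ {y | g y = t}).ncard) (rk M M.E - rk M (Suf M g (t + 1))) := fun t => rfl
  have h0 : f 0 = 0 := rfl
  have hlow : ∀ t, rk M M.E - rk M (Suf M g t) ≤ f t := by
    intro t
    cases t with
    | zero => rw [hs0]; omega
    | succ t => rw [hfs]; exact le_max_right _ _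
  have hmono : ∀ t, f t ≤ f (t + 1) := by
    intro t; rw [hfs]; exact (Nat.le_add_right _ _).trans (le_max_left _ _)
  have hstep : ∀ t, f (t + 1) ≤ f t + 1 := by
    intro t
    rw [hfs]
    apply max_le
    · have := ncard_level_le M hg hX t
      omega
    · have h1 := rk_Suf_succ M hg t
      have h2 := hlow t
      omega
  have hno : ∀ t, (∀ y ∈ M.E, g y ≠ t) → f (t + 1) = f t := by
    intro t ht
    rw [hfs]
    have h1 : (X ∩ {y | g y = t}) = ∅ := by
      ext z
      simp only [mem_inter_iff, mem_ofPred_eq, mem_empty_iff_false, iff_false]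
      rintro ⟨h1, h2⟩
      exact ht z (hX h1) h2
    have h2 : Suf M g (t + 1) = Suf M g t := by
      rcases Suf_succ_sub M hg t with h | ⟨y, hy, hyt, _⟩
      · exact h.symm
      · exact absurd hyt (ht y hy)
    rw [h1, h2]
    simp only [ncard_empty, add_zero]
    exact max_eq_left (hlow t)
  have hform : ∀ k, ∃ j ≤ k, f k = (rk M M.E - rk M (Suf M g j)) +
      (X ∩ (Pre M g k ∩ Suf M g j)).ncard := by
    intro k
    induction k with
    | zero =>
      refine ⟨0, le_rfl, ?_⟩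
      rw [h0, Pre_zero, hs0]; simp
    | succ k ih =>
      obtain ⟨j, hj, hjf⟩ := ih
      rcases le_total (f k + (X ∩ {y | g y = k}).ncard)
        (rk M M.E - rk M (Suf M g (k + 1))) with hc | hc
      · refine ⟨k + 1, le_rfl, ?_⟩
        rw [hfs, max_eq_right hc, Pre_inter_Suf_self]
        simp
      · refine ⟨j, by omega, ?_⟩
        rw [hfs, max_eq_left hc, ncard_interval_succ M hX hj, hjf]
        omega
  have hup : ∀ k, f k ≤ rk M (Pre M g k) := by
    intro k
    obtain ⟨j, hj, hjf⟩ := hform k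
    have h1 := h j k hj
    have h2 := hsle j
    omega
  set B : Set α := {y | y ∈ M.E ∧ f (g y) < f (g y + 1)} with hB
  have hBE : B ⊆ M.E := fun y hy => hy.1
  have hcount : ∀ t, (B ∩ Pre M g t).ncard = f t :=
    count_steps M hg f h0 hmono hstep hno
  obtain ⟨T, hT⟩ := exists_bound M g
  have hPT : Pre M g T = M.E := by
    ext y; exact ⟨fun h => h.1, fun h => ⟨h, hT y h⟩⟩
  have hST : Suf M g T = ∅ := by
    ext y
    simp only [Suf, mem_ofPred_eq, mem_empty_iff_false, iff_false]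
    rintro ⟨h1, h2⟩
    have := hT y h1
    omega
  have hBcard : B.ncard = rk M M.E := by
    have h1 := hcount T
    rw [hPT, inter_eq_left.2 hBE] at h1
    have h2 := hup T
    rw [hPT] at h2
    have h3 := hlow T
    rw [hST] at h3
    simp only [rk_empty] at h3
    omega
  have hbase : M.IsBase B := by
    refine hLP B hBE hBcard (fun t => ?_) (fun t => ?_)
    · rw [hcount]; exact hup t
    · have h1 := ncard_Pre_add_Suf M g hBE t
      rw [hcount] at h1
      have h2 := hlow t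
      have h3 := hsle t
      omega
  refine hbase.indep.subset ?_
  intro x hx
  refine ⟨hX hx, ?_⟩
  have h1 : (X ∩ {y | g y = g x}).ncard = 1 := by
    apply le_antisymm (ncard_level_le M hg hX (g x))
    rw [Nat.one_le_iff_ne_zero, Ne, Set.ncard_eq_zero (sub_fin M (inter_subset_left.trans hX))]
    exact Set.nonempty_iff_ne_empty.1 ⟨x, hx, rfl⟩
  rw [hfs, h1]
  exact lt_of_lt_of_le (Nat.lt_succ_self _) (le_max_left _ _)

/-- The rank formula for circuits. -/
theorem LP.circuit (hg : InjOn g M.E) (hLP : LP M g) {C : Set α} (hC : M.IsCircuit C)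
    {a b : α} (ha : a ∈ C) (hb : b ∈ C) (hamin : ∀ c ∈ C, g a ≤ g c) (hbmax : ∀ c ∈ C, g c ≤ g b) :
    C.ncard + rk M M.E = rk M (Pre M g (g b + 1)) + rk M (Suf M g (g a)) + 1 ∧
      rk M (Pre M g (g b + 1)) = rk M (Pre M g (g b)) := by
  have hCE := hC.subset_ground
  have hCf : C.Finite := sub_fin M hCE
  have hab : g a ≤ g b := hamin b hb
  -- some interval violates the bound
  have hviol : ∃ j k, j ≤ k ∧ rk M (Pre M g k) + rk M (Suf M g j) <
      (C ∩ (Pre M g k ∩ Suf M g j)).ncard + rk M M.E := by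
    by_contra hcon
    push Not at hcon
    exact hC.not_indep (hLP.indep_of_interval M hg hCE hcon)
  obtain ⟨j, k, hjk, hviol⟩ := hviol
  have hCsub : C ⊆ Pre M g k ∩ Suf M g j := by
    by_contra hns
    have hss : C ∩ (Pre M g k ∩ Suf M g j) ⊂ C :=
      ⟨inter_subset_left, fun h' => hns (fun x hx => (h' hx).2)⟩
    have h1 := indep_interval M g (hC.ssubset_indep hss) hjk
    rw [inter_assoc, inter_self] at h1
    omega
  have hk : g b < k := (hCsub hb).1.2
  have hj : j ≤ g a := (hCsub ha).2.2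
  rw [inter_eq_left.2 hCsub] at hviol
  have hP1 : rk M (Pre M g (g b + 1)) ≤ rk M (Pre M g k) := rk_mono M (Pre_mono M g hk)
  have hS1 : rk M (Suf M g (g a)) ≤ rk M (Suf M g j) := rk_mono M (Suf_anti M g hj)
  -- the other direction
  have hdel : ∀ x ∈ C, (C \ {x}).ncard + 1 = C.ncard := fun x hx =>
    Set.ncard_sdiff_singleton_add_one hx hCf
  have h2 := indep_interval M g (hC.sdiff_singleton_indep hb) hab
  have h3 : (C \ {b}) ∩ (Pre M g (g b) ∩ Suf M g (g a)) = C \ {b} := by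
    rw [inter_eq_left]
    rintro z ⟨hz, hzb⟩
    refine ⟨⟨hCE hz, ?_⟩, ⟨hCE hz, hamin z hz⟩⟩
    refine lt_of_le_of_ne (hbmax z hz) (fun h => hzb ?_)
    exact hg (hCE hz) (hCE hb) h
  rw [h3] at h2
  have h4 := hdel b hb
  have h5 : rk M (Pre M g (g b)) ≤ rk M (Pre M g (g b + 1)) :=
    rk_mono M (Pre_mono M g (Nat.le_succ _))
  constructor <;> omega

end

end Pool.Agent.LPM
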