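import Mathlib

/-!
# Natural number rank of a finite matroid
-/

set_option autoImplicit false
set_option linter.unusedSectionVars false

open Set

namespace Pool.Agent.LPM

universe u

variable {α : Type u}

/-- The rank of a set, as a natural number. -/
noncomputable def rk (M : Matroid α) (X : Set α) : ℕ := (M.eRk X).toNat

section

variable (M : Matroid α) [M.Finite]

theorem coe_rk (X : Set α) : (rk M X : ℕ∞) = M.eRk X := by
  have h : M.eRk X ≠ ⊤ := by
    rw [Matroid.eRk_ne_top_iff]; exact M.isRkFinite_set X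
  exact ENat.natCast_toNat h

theorem rk_mono {X Y : Set α} (h : X ⊆ Y) : rk M X ≤ rk M Y := by
  have := M.eRk_mono h
  rw [← coe_rk, ← coe_rk] at this
  exact_mod_cast this

theorem rk_submod (X Y : Set α) : rk M (X ∩ Y) + rk M (X ∪ Y) ≤ rk M X + rk M Y := by
  have := M.eRk_inter_add_eRk_union_le X Y
  rw [← coe_rk, ← coe_rk, ← coe_rk, ← coe_rk] at this
  exact_mod_cast this

theorem rk_union_le (X Y : Set α) : rk M (X ∪ Y) ≤ rk M X + rk M Y :=
  (Nat.le_add_left _ _).trans (rk_submod M X Y)

@[simp] theorem rk_empty : rk M ∅ = 0 := by simp [rk]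

@[simp] theorem rk_closure (X : Set α) : rk M (M.closure X) = rk M X := by simp [rk]

theorem rk_insert_le (e : α) (X : Set α) : rk M (insert e X) ≤ rk M X + 1 := by
  have := M.eRk_insert_le_add_one e X
  rw [← coe_rk, ← coe_rk] at this
  exact_mod_cast this

theorem indep_rk {I : Set α} (hI : M.Indep I) : rk M I = I.ncard := by
  rw [rk, hI.eRk_eq_encard]; rfl

theorem indep_ncard_le {I X : Set α} (hI : M.Indep I) (h : I ⊆ X) : I.ncard ≤ rk M X := by
  rw [← indep_rk M hI]; exact rk_mono M h

theorem basis_ncard {I X : Set α} (hI : M.IsBasis I X) : I.ncard = rk M X := by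
  rw [rk, ← hI.encard_eq_eRk]; rfl

theorem base_ncard {B : Set α} (hB : M.IsBase B) : B.ncard = rk M M.E :=
  basis_ncard M hB.isBasis_ground

theorem isBase_of_ncard {I : Set α} (hI : M.Indep I) (h : rk M M.E ≤ I.ncard) : M.IsBase I := by
  refine hI.isBase_of_eRk_ge (M.set_finite I hI.subset_ground) ?_
  rw [← M.eRk_ground, ← coe_rk, ← coe_rk, indep_rk M hI]
  exact_mod_cast h

theorem subset_closure_of_rk {X Y : Set α} (hXY : X ⊆ Y) (hY : Y ⊆ M.E) (h : rk M Y ≤ rk M X) :
    Y ⊆ M.closure X := by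
  have h1 : M.eRk Y ≤ M.eRk X := by
    rw [← coe_rk, ← coe_rk]; exact_mod_cast h
  rw [Matroid.IsRkFinite.closure_eq_closure_of_subset_of_eRk_ge_eRk (M.isRkFinite_set X) hXY h1]
  exact M.subset_closure Y hY

theorem isBasis_of_ncard {I X : Set α} (hI : M.Indep I) (hIX : I ⊆ X) (hX : X ⊆ M.E)
    (h : rk M X ≤ I.ncard) : M.IsBasis I X :=
  hI.isBasis_of_subset_of_subset_closure hIX
    (subset_closure_of_rk M hIX hX (by rw [indep_rk M hI]; exact h))

theorem circuit_rk {C : Set α} (hC : M.IsCircuit C) : rk M C + 1 = C.ncard := by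
  have h := hC.eRk_add_one_eq
  have hf : C.Finite := M.set_finite C hC.subset_ground
  rw [← coe_rk, ← hf.cast_ncard_eq] at h
  exact_mod_cast h

theorem sub_fin {X : Set α} (hX : X ⊆ M.E) : X.Finite := M.set_finite X hX

end

/-- A separator, described by circuits. -/
def Separator (M : Matroid α) (K : Set α) : Prop :=
  ∀ C, M.IsCircuit C → C ⊆ K ∨ Disjoint C K

/-- A component: a minimal nonempty separator. -/
def Component (M : Matroid α) (K : Set α) : Prop :=
  K ⊆ M.E ∧ K.Nonempty ∧ Separator M K ∧ ∀ K' ⊆ K, K'.Nonempty → Separator M K' → K ⊆ K'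

/-- Connectedness: no separators except the trivial ones. -/
def Conn (M : Matroid α) : Prop := ∀ K ⊆ M.E, K.Nonempty → Separator M K → K = M.E

theorem Separator.indep_union {M : Matroid α} {K : Set α} (h : Separator M K) {I J : Set α}
    (hI : M.Indep I) (hJ : M.Indep J) (hIK : I ⊆ K) (hJK : Disjoint J K) : M.Indep (I ∪ J) := by
  by_contra hcon
  have hdep : M.Dep (I ∪ J) :=
    Matroid.dep_of_not_indep hcon (union_subset hI.subset_ground hJ.subset_ground)
  obtain ⟨C, hCs, hC⟩ := hdep.exists_isCircuit_subset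
  rcases h C hC with h1 | h1
  · have : C ⊆ I := by
      intro x hx
      rcases hCs hx with h2 | h2
      · exact h2
      · exact absurd (h1 hx) (Set.disjoint_left.1 hJK h2)
    exact hC.not_indep (hI.subset this)
  · have : C ⊆ J := by
      intro x hx
      rcases hCs hx with h2 | h2
      · exact absurd (hIK h2) (Set.disjoint_left.1 h1 hx)
      · exact h2
    exact hC.not_indep (hJ.subset this)

section

variable {M : Matroid α} [M.Finite]

theorem Separator.rk_split {K : Set α} (h : Separator M K) {X Y : Set α} (hX : X ⊆ K) (hY : Disjoint Y K)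
    (hXE : X ⊆ M.E) (hYE : Y ⊆ M.E) : rk M (X ∪ Y) = rk M X + rk M Y := by
  apply le_antisymm (rk_union_le M X Y)
  obtain ⟨I, hI⟩ := M.exists_isBasis X hXE
  obtain ⟨J, hJ⟩ := M.exists_isBasis Y hYE
  have hIJ : M.Indep (I ∪ J) :=
    h.indep_union hI.indep hJ.indep (hI.subset.trans hX) (hY.mono_left hJ.subset)
  have hd : Disjoint I J := by
    rw [Set.disjoint_left]
    intro x hx hx'
    exact Set.disjoint_left.1 hY (hJ.subset hx') (hX (hI.subset hx))
  have h1 := indep_ncard_le M hIJ (union_subset_union hI.subset hJ.subset)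
  rw [Set.ncard_union_eq hd (sub_fin M (hI.subset.trans hXE)) (sub_fin M (hJ.subset.trans hYE)),
    basis_ncard M hI, basis_ncard M hJ] at h1
  exact h1

theorem sep_of_rk {K : Set α} (hK : K ⊆ M.E) (h : rk M K + rk M (M.E \ K) ≤ rk M M.E) :
    Separator M K := by
  intro C hC
  by_contra hcon
  push Not at hcon
  obtain ⟨hc1, hc2⟩ := hcon
  -- `C ∩ K` and `C \ K` are independent
  have hI : M.Indep (C ∩ K) := by
    apply hC.ssubset_indep
    refine ⟨inter_subset_left, fun h' => hc1 (fun x hx => (h' hx).2)⟩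
  have hJ : M.Indep (C \ K) := by
    apply hC.ssubset_indep
    refine ⟨sdiff_subset, fun h' => hc2 ?_⟩
    rw [Set.disjoint_left]
    intro x hx
    exact (h' hx).2
  obtain ⟨B1, hB1, hI1⟩ := hI.subset_isBasis_of_subset (inter_subset_right : C ∩ K ⊆ K) hK
  obtain ⟨B2, hB2, hJ1⟩ := hJ.subset_isBasis_of_subset
    (show C \ K ⊆ M.E \ K from sdiff_subset_sdiff_left hC.subset_ground) sdiff_subset
  have hd : Disjoint B1 B2 := by
    rw [Set.disjoint_left]
    intro x hx hx'
    exact (hB2.subset hx').2 (hB1.subset hx)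
  have hcard : (B1 ∪ B2).ncard = rk M K + rk M (M.E \ K) := by
    rw [Set.ncard_union_eq hd (sub_fin M hB1.indep.subset_ground)
      (sub_fin M hB2.indep.subset_ground), basis_ncard M hB1, basis_ncard M hB2]
  have hcl : M.E ⊆ M.closure (B1 ∪ B2) := by
    intro x hx
    by_cases hxK : x ∈ K
    · exact M.closure_subset_closure subset_union_left (hB1.subset_closure hxK)
    · exact M.closure_subset_closure subset_union_right (hB2.subset_closure ⟨hx, hxK⟩)
  have hrk : rk M M.E ≤ rk M (B1 ∪ B2) := by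
    rw [← rk_closure M (B1 ∪ B2)]; exact rk_mono M hcl
  have hind : M.Indep (B1 ∪ B2) := by
    rw [Matroid.indep_iff_eRk_eq_encard, ← coe_rk,
      ← (sub_fin M (union_subset hB1.indep.subset_ground hB2.indep.subset_ground)).cast_ncard_eq]
    have h2 : rk M (B1 ∪ B2) ≤ rk M M.E :=
      rk_mono M (union_subset hB1.indep.subset_ground hB2.indep.subset_ground)
    have h3 : rk M (B1 ∪ B2) = (B1 ∪ B2).ncard := by
      have h4 : rk M (B1 ∪ B2) ≤ rk M B1 + rk M B2 := rk_union_le M B1 B2
      rw [indep_rk M hB1.indep, indep_rk M hB2.indep, basis_ncard M hB1, basis_ncard M hB2] at h4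
      omega
    exact_mod_cast h3
  refine hC.not_indep (hind.subset ?_)
  intro x hx
  by_cases hxK : x ∈ K
  · exact Or.inl (hI1 ⟨hx, hxK⟩)
  · exact Or.inr (hJ1 ⟨hx, hxK⟩)

end

end Pool.Agent.LPM
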